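import Mathlib

namespace Pool.Agent.MP_bfa999_lc

/-- `C` is an MWS rank-metric code of dimension `k`: its nonzero elements have exactly
`(q^k - 1)/(q - 1)` distinct ranks. -/
def IsMWS {F : Type} [Field F] [Fintype F] {m n : ℕ} (k : ℕ)
    (C : Submodule F (Matrix (Fin m) (Fin n) F)) : Prop :=
  Module.finrank F C = k ∧
    {r : ℕ | ∃ A ∈ C, A ≠ 0 ∧ A.rank = r}.ncard = (Fintype.card F ^ k - 1) / (Fintype.card F - 1)

/-- `(m, n) ∈ S(q, k)` for `q = |F|`. -/
def InS (F : Type) [Field F] [Fintype F] (k m n : ℕ) : Prop :=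
  0 < m ∧ 0 < n ∧ ∃ C : Submodule F (Matrix (Fin m) (Fin n) F), IsMWS k C

end Pool.Agent.MP_bfa999_lc
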