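import Mathlib

namespace Pool.Agent.MP_bfa999_lc

/-- there is a Hamming-metric MWS code of dimension `k` and length `n` over `F`: its nonzero
codewords have exactly `(q^k - 1)/(q - 1)` distinct Hamming weights. -/
def HamMWS (F : Type) [Field F] [Fintype F] [DecidableEq F] (k n : ℕ) : Prop :=
  ∃ C : Submodule F (Fin n → F), Module.finrank F C = k ∧
    {w : ℕ | ∃ c ∈ C, c ≠ 0 ∧ hammingNorm c = w}.ncard =
      (Fintype.card F ^ k - 1) / (Fintype.card F - 1)

end Pool.Agent.MP_bfa999_lc
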